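import Pool.Agent.LibKloosterman.Basic

/-!
# Negative values of Kloosterman sums modulo primes `d ≡ 3 (mod 4)`
-/

namespace Kloo

open Finset

variable {d : ℕ} [hd : Fact d.Prime]

lemma sum_units_eq (f : ZMod d → ℂ) : ∑ x : ZMod d, f x = f 0 + ∑ u : (ZMod d)ˣ, f u := by
  classical
  rw [← Finset.add_sum_erase univ f (mem_univ 0)]
  congr 1
  symm
  refine sum_bij (fun u _ => (u : ZMod d)) ?_ ?_ ?_ ?_
  · intro u _
    rw [mem_erase]; exact ⟨u.ne_zero, mem_univ _⟩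
  · intro u _ v _ h; exact Units.ext h
  · intro x hx
    rw [mem_erase] at hx
    exact ⟨Units.mk0 x hx.1, mem_univ _, rfl⟩
  · intro u _; rfl

/-- The quadratic character with complex values. -/
noncomputable def chi (d : ℕ) [Fact d.Prime] : MulChar (ZMod d) ℂ :=
  (quadraticChar (ZMod d)).ringHomComp (Int.castRingHom ℂ)

lemma chi_apply (x : ZMod d) : chi d x = ((quadraticChar (ZMod d) x : ℤ) : ℂ) := rfl

/-- The Gauss sum. -/
noncomputable def gs (d : ℕ) [Fact d.Prime] : ℂ := gaussSum (chi d) (ZMod.stdAddChar (N := d))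

lemma ringChar_ne (h3 : d % 4 = 3) : ringChar (ZMod d) ≠ 2 := by
  rw [ZMod.ringChar_zmod_n]; omega

lemma chi_ne_one (h3 : d % 4 = 3) : chi d ≠ 1 := by
  unfold chi
  rw [MulChar.ringHomComp_ne_one_iff (Int.cast_injective)]
  exact quadraticChar_ne_one (ringChar_ne h3)

lemma chi_quad : (chi d).IsQuadratic := (quadraticChar_isQuadratic (F := ZMod d)).comp _

lemma chi_neg_one (h3 : d % 4 = 3) : chi d (-1) = -1 := by
  rw [chi_apply, quadraticChar_neg_one (ringChar_ne h3), ZMod.card]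
  rw [ZMod.χ₄_nat_three_mod_four h3]
  simp

lemma gs_sq (h3 : d % 4 = 3) : gs d ^ 2 = -(d : ℂ) := by
  unfold gs
  rw [gaussSum_sq (χ := chi d) (chi_ne_one h3) chi_quad (ZMod.isPrimitive_stdAddChar d),
    chi_neg_one h3, ZMod.card]
  ring

lemma chi_mul_self (x : ZMod d) (hx : x ≠ 0) : chi d x * chi d x = 1 := by
  have h := chi_quad (d := d).sq_eq_one
  have h1 : (chi d * chi d) x = (1 : MulChar (ZMod d) ℂ) x := by rw [← pow_two, h]
  rw [MulChar.mul_apply] at h1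
  rw [h1]
  exact MulChar.one_apply (isUnit_iff_ne_zero.2 hx)

lemma sum_psi_zero (c : ZMod d) (hc : c ≠ 0) :
    ∑ y : ZMod d, (ZMod.stdAddChar (c * y) : ℂ) = 0 := by
  have h := AddChar.sum_mulShift c (ZMod.isPrimitive_stdAddChar d)
  rw [if_neg hc] at h
  simpa [mul_comm] using h

/-- `∑_y χ(y) ψ(m y) = χ(m) g`. -/
lemma sum_chi_psi (m : ZMod d) (hm : m ≠ 0) :
    ∑ y : ZMod d, chi d y * (ZMod.stdAddChar (m * y) : ℂ) = chi d m * gs d := by
  have h := gaussSum_mulShift_eq (chi d) (ZMod.stdAddChar (N := d)) (Units.mk0 m hm)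
  rw [chi_quad.inv] at h
  unfold gs
  rw [← Units.val_mk0 hm]
  rw [show chi d (Units.mk0 m hm : ZMod d) * gaussSum (chi d) (ZMod.stdAddChar (N := d)) =
    gaussSum (chi d) (AddChar.mulShift ZMod.stdAddChar ((Units.mk0 m hm : (ZMod d)ˣ) : ZMod d)) from
      h.symm]
  unfold gaussSum
  rfl

/-- `∑_u ψ(c u²) = χ(c) g`. -/
lemma sum_psi_sq (h3 : d % 4 = 3) (c : ZMod d) (hc : c ≠ 0) :
    ∑ u : ZMod d, (ZMod.stdAddChar (c * u ^ 2) : ℂ) = chi d c * gs d := by
  classical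
  have h1 : ∑ u : ZMod d, (ZMod.stdAddChar (c * u ^ 2) : ℂ) =
      ∑ y : ZMod d, ∑ u ∈ univ.filter (fun u : ZMod d => u ^ 2 = y),
        (ZMod.stdAddChar (c * u ^ 2) : ℂ) := by
    rw [sum_fiberwise]
  have h2 : ∀ y : ZMod d, ∑ u ∈ univ.filter (fun u : ZMod d => u ^ 2 = y),
        (ZMod.stdAddChar (c * u ^ 2) : ℂ) = (chi d y + 1) * ZMod.stdAddChar (c * y) := by
    intro y
    have h4 : ∀ u ∈ univ.filter (fun u : ZMod d => u ^ 2 = y),
        (ZMod.stdAddChar (c * u ^ 2) : ℂ) = ZMod.stdAddChar (c * y) := by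
      intro u hu
      rw [(mem_filter.1 hu).2]
    rw [sum_congr rfl h4, sum_const, nsmul_eq_mul]
    congr 1
    have h5 := quadraticChar_card_sqrts (ringChar_ne h3) y
    have h6 : #{x : ZMod d | x ^ 2 = y}.toFinset = #(univ.filter (fun u : ZMod d => u ^ 2 = y)) := by
      congr 1
      ext u; simp
    rw [h6] at h5
    rw [chi_apply]
    exact_mod_cast congrArg (fun z : ℤ => (z : ℂ)) h5
  rw [h1, sum_congr rfl fun y _ => h2 y]
  simp_rw [add_mul, one_mul]
  rw [sum_add_distrib, sum_psi_zero c hc, add_zero, sum_chi_psi c hc]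

/-- Completing the square. -/
lemma sum_psi_quad (h3 : d % 4 = 3) (c k : ZMod d) (hc : c ≠ 0) :
    ∑ u : ZMod d, (ZMod.stdAddChar (c * u ^ 2 + k * u) : ℂ) =
      ZMod.stdAddChar (-(k ^ 2 * (4 * c)⁻¹)) * (chi d c * gs d) := by
  have h2 : (2 : ZMod d) ≠ 0 := by
    intro h
    have : ((2 : ℕ) : ZMod d) = 0 := by exact_mod_cast h
    rw [ZMod.natCast_eq_zero_iff] at this
    have := Nat.le_of_dvd (by norm_num) this
    have := hd.out.two_le
    omega
  have h4 : (4 : ZMod d) ≠ 0 := by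
    have : (4 : ZMod d) = 2 * 2 := by norm_num
    rw [this]; exact mul_ne_zero h2 h2
  rw [← sum_psi_sq h3 c hc, mul_sum]
  refine Fintype.sum_equiv (Equiv.addRight (k * (2 * c)⁻¹)) _ _ fun u => ?_
  rw [Equiv.coe_addRight, ← AddChar.map_add_eq_mul]
  congr 1
  field_simp
  ring

/-- The weighted sum over the square class. -/
lemma T_eq (h3 : d % 4 = 3) (α k : ZMod d) (hα : α ≠ 0) (hm : 1 - k ^ 2 * (4 * α)⁻¹ ≠ 0) :
    ∑ u : (ZMod d)ˣ, K d (α * (u : ZMod d) ^ 2) * ZMod.stdAddChar (k * (u : ZMod d)) =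
      1 - chi d α * chi d (1 - k ^ 2 * (4 * α)⁻¹) * d := by
  have h0 : K d (α * (0 : ZMod d) ^ 2) * ZMod.stdAddChar (k * (0 : ZMod d)) = -1 := by
    unfold K
    simp only [ne_eq, OfNat.ofNat_ne_zero, not_false_eq_true, zero_pow, mul_zero, zero_mul,
      zero_add, AddChar.map_zero_eq_one, mul_one]
    have h1 := sum_units_eq (d := d) (fun x => (ZMod.stdAddChar (1 * x) : ℂ))
    rw [sum_psi_zero 1 one_ne_zero] at h1
    simp only [mul_zero, AddChar.map_zero_eq_one, one_mul] at h1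
    have h2 : ∑ u : (ZMod d)ˣ, (ZMod.stdAddChar (((u⁻¹ : (ZMod d)ˣ)) : ZMod d) : ℂ) =
        ∑ u : (ZMod d)ˣ, (ZMod.stdAddChar (u : ZMod d) : ℂ) :=
      Fintype.sum_equiv (Equiv.inv _) _ _ fun u => rfl
    rw [h2]
    linear_combination -h1
  have h1 := sum_units_eq (d := d)
    (fun u => K d (α * u ^ 2) * ZMod.stdAddChar (k * u))
  rw [h0] at h1
  have h2 : ∑ u : ZMod d, K d (α * u ^ 2) * ZMod.stdAddChar (k * u) =
      -(chi d α * chi d (1 - k ^ 2 * (4 * α)⁻¹) * d) := by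
    have e1 : ∑ u : ZMod d, K d (α * u ^ 2) * ZMod.stdAddChar (k * u) =
        ∑ x : (ZMod d)ˣ, ZMod.stdAddChar (((x⁻¹ : (ZMod d)ˣ)) : ZMod d) *
          ∑ u : ZMod d, (ZMod.stdAddChar (α * (x : ZMod d) * u ^ 2 + k * u) : ℂ) := by
      unfold K
      simp_rw [sum_mul, mul_sum]
      rw [sum_comm]
      refine sum_congr rfl fun x _ => sum_congr rfl fun u _ => ?_
      rw [← AddChar.map_add_eq_mul, ← AddChar.map_add_eq_mul]
      congr 1; ring
    rw [e1]
    have e2 : ∀ x : (ZMod d)ˣ, ZMod.stdAddChar (((x⁻¹ : (ZMod d)ˣ)) : ZMod d) *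
          ∑ u : ZMod d, (ZMod.stdAddChar (α * (x : ZMod d) * u ^ 2 + k * u) : ℂ) =
        (chi d α * gs d) * (chi d (((x⁻¹ : (ZMod d)ˣ)) : ZMod d) *
          ZMod.stdAddChar ((1 - k ^ 2 * (4 * α)⁻¹) * (((x⁻¹ : (ZMod d)ˣ)) : ZMod d))) := by
      intro x
      rw [sum_psi_quad h3 (α * (x : ZMod d)) k (mul_ne_zero hα x.ne_zero)]
      have e3 : chi d (α * (x : ZMod d)) = chi d α * chi d (((x⁻¹ : (ZMod d)ˣ)) : ZMod d) := by
        rw [map_mul]
        congr 1
        have e4 := chi_mul_self (x : ZMod d) x.ne_zero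
        have e5 : chi d (x : ZMod d) * chi d (((x⁻¹ : (ZMod d)ˣ)) : ZMod d) = 1 := by
          rw [← map_mul, Units.mul_inv, map_one]
        have e6 : chi d (x : ZMod d) ≠ 0 := by
          intro h; rw [h, zero_mul] at e4; exact zero_ne_one e4
        exact mul_left_cancel₀ e6 (e4.trans e5.symm)
      rw [e3]
      have e4 : (ZMod.stdAddChar ((1 - k ^ 2 * (4 * α)⁻¹) * (((x⁻¹ : (ZMod d)ˣ)) : ZMod d)) : ℂ) =
          ZMod.stdAddChar (((x⁻¹ : (ZMod d)ˣ)) : ZMod d) *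
            ZMod.stdAddChar (-(k ^ 2 * (4 * (α * (x : ZMod d)))⁻¹)) := by
        rw [← AddChar.map_add_eq_mul]
        congr 1
        rw [Units.val_inv_eq_inv_val, mul_inv, mul_inv, mul_inv]
        ring
      rw [e4]
      ring
    rw [sum_congr rfl fun x _ => e2 x, ← mul_sum]
    have e5 : ∑ x : (ZMod d)ˣ, (chi d (((x⁻¹ : (ZMod d)ˣ)) : ZMod d) *
          ZMod.stdAddChar ((1 - k ^ 2 * (4 * α)⁻¹) * (((x⁻¹ : (ZMod d)ˣ)) : ZMod d))) =
        chi d (1 - k ^ 2 * (4 * α)⁻¹) * gs d := by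
      rw [← sum_chi_psi _ hm, sum_units_eq]
      rw [MulChar.map_zero, zero_mul, zero_add]
      exact Fintype.sum_equiv (Equiv.inv _) _ _ fun u => rfl
    rw [e5]
    have e6 := gs_sq h3
    linear_combination (chi d α * chi d (1 - k ^ 2 * (4 * α)⁻¹)) * e6
  rw [h2] at h1
  linear_combination -h1

lemma re_psi_lt (y : ZMod d) (hy : y ≠ 0) : (ZMod.stdAddChar y : ℂ).re < 1 := by
  have hn : ‖(ZMod.stdAddChar y : ℂ)‖ = 1 := by
    rw [ZMod.stdAddChar_apply]; exact Circle.norm_coe _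
  have h1 : (ZMod.stdAddChar y : ℂ) ≠ 1 := by
    intro h
    apply hy
    apply ZMod.injective_stdAddChar
    rw [h, AddChar.map_zero_eq_one]
  by_contra hcon
  push Not at hcon
  have h2 := Complex.sq_norm (ZMod.stdAddChar y : ℂ)
  rw [hn, Complex.normSq_apply] at h2
  apply h1
  have h3 : (ZMod.stdAddChar y : ℂ).re ≤ 1 := by
    have := Complex.re_le_norm (ZMod.stdAddChar y : ℂ)
    rw [hn] at this; exact this
  have h4 : (ZMod.stdAddChar y : ℂ).re = 1 := le_antisymm h3 hcon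
  have h5 : (ZMod.stdAddChar y : ℂ).im = 0 := by
    rw [h4] at h2
    nlinarith
  exact Complex.ext (by rw [h4]; simp) (by rw [h5]; simp)

lemma K_im (c : ℕ) [NeZero c] (α : ZMod c) : (K c α).im = 0 := Complex.conj_eq_iff_im.1 (K_conj c α)

/-- In the class `α · squares` some Kloosterman sum is negative. -/
theorem exists_neg (h3 : d % 4 = 3) (h7 : 3 < d) (α : ZMod d) (hα : α ≠ 0) :
    ∃ u : (ZMod d)ˣ, (K d (α * (u : ZMod d) ^ 2)).re < 0 := by
  by_contra hcon
  push Not at hcon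
  have hne : ∀ u : (ZMod d)ˣ, K d (α * (u : ZMod d) ^ 2) ≠ 0 := fun u =>
    K_ne_zero d hd.out.prime.squarefree _
  have hpos : ∀ u : (ZMod d)ˣ, 0 < (K d (α * (u : ZMod d) ^ 2)).re := by
    intro u
    refine lt_of_le_of_ne (hcon u) fun h => ?_
    exact hne u (Complex.ext h.symm (K_im _ _))
  have h2 : (2 : ZMod d) ≠ 0 := by
    intro h
    have : ((2 : ℕ) : ZMod d) = 0 := by exact_mod_cast h
    rw [ZMod.natCast_eq_zero_iff] at this
    have := Nat.le_of_dvd (by norm_num) this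
    omega
  have h3' : (3 : ZMod d) ≠ 0 := by
    intro h
    have : ((3 : ℕ) : ZMod d) = 0 := by exact_mod_cast h
    rw [ZMod.natCast_eq_zero_iff] at this
    have := Nat.le_of_dvd (by norm_num) this
    omega
  have h4 : (4 : ZMod d) ≠ 0 := by
    have : (4 : ZMod d) = 2 * 2 := by norm_num
    rw [this]; exact mul_ne_zero h2 h2
  have hT0 := T_eq h3 α 0 hα (by simp)
  simp only [ne_eq, OfNat.ofNat_ne_zero, not_false_eq_true, zero_pow, zero_mul, sub_zero,
    map_one, mul_one, AddChar.map_zero_eq_one] at hT0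
  have hd0 : (3 : ℝ) < d := by exact_mod_cast h7
  have hre0 := congrArg Complex.re hT0
  rw [Complex.re_sum] at hre0
  rcases quadraticChar_dichotomy (F := ZMod d) hα with hχ | hχ
  · -- χ(α) = 1
    rw [chi_apply, hχ] at hre0
    simp at hre0
    have : 0 ≤ ∑ u : (ZMod d)ˣ, (K d (α * (u : ZMod d) ^ 2)).re := sum_nonneg fun u _ => hcon u
    linarith
  · rw [chi_apply, hχ] at hre0
    -- choose k
    set b : ZMod d := (4 * α)⁻¹ with hb
    have hb0 : b ≠ 0 := inv_ne_zero (mul_ne_zero h4 hα)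
    have hαns : ¬ IsSquare α := quadraticChar_neg_one_iff_not_isSquare.1 hχ
    have hbns : ∀ m : ZMod d, m ^ 2 ≠ b := by
      intro m hm
      apply hαns
      have hm0 : m ≠ 0 := by rintro rfl; exact hb0 (by rw [← hm]; ring)
      refine ⟨(2 * m)⁻¹, ?_⟩
      have h5 : α = (4 * b)⁻¹ := by
        rw [hb]; field_simp
      rw [h5, ← hm]
      field_simp
      norm_num
    obtain ⟨m, hm0, hmb⟩ : ∃ m : ZMod d, m ≠ 0 ∧ m ^ 2 + b ≠ 0 := by
      by_cases h : (1 : ZMod d) + b = 0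
      · refine ⟨2, h2, ?_⟩
        intro h5
        apply h3'
        linear_combination h5 - h
      · exact ⟨1, one_ne_zero, by simpa using h⟩
    set k : ZMod d := -2 * m / (m ^ 2 + b) with hk
    have hk0 : k ≠ 0 := by
      rw [hk]
      exact div_ne_zero (mul_ne_zero (neg_ne_zero.2 h2) hm0) hmb
    have hy : 1 - k ^ 2 * b = ((b - m ^ 2) / (m ^ 2 + b)) ^ 2 := by
      rw [hk]; field_simp; ring
    have hy0 : (b - m ^ 2) / (m ^ 2 + b) ≠ 0 := by
      apply div_ne_zero _ hmb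
      rw [sub_ne_zero]; exact (hbns m).symm
    have hTk := T_eq h3 α k hα (by rw [← hb, hy]; exact pow_ne_zero 2 hy0)
    rw [← hb, hy] at hTk
    have hχ1 : chi d (((b - m ^ 2) / (m ^ 2 + b)) ^ 2) = 1 := by
      rw [pow_two, map_mul]; exact chi_mul_self _ hy0
    rw [hχ1, mul_one] at hTk
    have hrek := congrArg Complex.re hTk
    rw [Complex.re_sum, chi_apply, hχ] at hrek
    have h5 : ∑ u : (ZMod d)ˣ, (K d (α * (u : ZMod d) ^ 2)).re *
        (1 - (ZMod.stdAddChar (k * (u : ZMod d)) : ℂ).re) = 0 := by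
      have h6 : ∀ u : (ZMod d)ˣ, (K d (α * (u : ZMod d) ^ 2) *
          ZMod.stdAddChar (k * (u : ZMod d))).re = (K d (α * (u : ZMod d) ^ 2)).re *
          (ZMod.stdAddChar (k * (u : ZMod d)) : ℂ).re := by
        intro u
        rw [Complex.mul_re, K_im, zero_mul, sub_zero]
      rw [sum_congr rfl fun u _ => h6 u] at hrek
      simp_rw [mul_sub, mul_one]
      rw [sum_sub_distrib, hrek, hre0, sub_self]
    have h6 : 0 < ∑ u : (ZMod d)ˣ, (K d (α * (u : ZMod d) ^ 2)).re *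
        (1 - (ZMod.stdAddChar (k * (u : ZMod d)) : ℂ).re) := by
      apply sum_pos
      · intro u _
        apply mul_pos (hpos u)
        have := re_psi_lt (k * (u : ZMod d)) (mul_ne_zero hk0 u.ne_zero)
        linarith
      · exact ⟨1, mem_univ _⟩
    linarith

/-- Some fourth power class is negative: there is `A` with `S(a A⁻⁴, 1; d) < 0`. -/
theorem exists_neg_fourth (h3 : d % 4 = 3) (h7 : 3 < d) (α : ZMod d) (hα : α ≠ 0) :
    ∃ A : (ZMod d)ˣ, (K d (α * (((A : ZMod d) ^ 2)⁻¹) ^ 2)).re < 0 := by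
  obtain ⟨u, hu⟩ := exists_neg h3 h7 α hα
  have hu0 : (u : ZMod d) ≠ 0 := u.ne_zero
  have hsq : IsSquare ((u : ZMod d)⁻¹) ∨ IsSquare (-(u : ZMod d)⁻¹) := by
    by_contra hcon
    push Not at hcon
    have h1 := quadraticChar_neg_one_iff_not_isSquare.2 hcon.1
    have h2 := quadraticChar_neg_one_iff_not_isSquare.2 hcon.2
    have h4 : quadraticChar (ZMod d) (-1) = -1 := by
      rw [quadraticChar_neg_one (ringChar_ne h3), ZMod.card, ZMod.χ₄_nat_three_mod_four h3]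
    rw [neg_eq_neg_one_mul, map_mul, h4, h1] at h2
    norm_num at h2
  rcases hsq with ⟨r, hr⟩ | ⟨r, hr⟩
  · have hr0 : r ≠ 0 := by
      rintro rfl; rw [mul_zero] at hr; exact (inv_ne_zero hu0) hr
    refine ⟨Units.mk0 r hr0, ?_⟩
    have : ((Units.mk0 r hr0 : (ZMod d)ˣ) : ZMod d) = r := rfl
    rw [this, pow_two r, ← hr, inv_inv]
    exact hu
  · have hr0 : r ≠ 0 := by
      rintro rfl; rw [mul_zero] at hr; exact (neg_ne_zero.2 (inv_ne_zero hu0)) hr
    refine ⟨Units.mk0 r hr0, ?_⟩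
    have : ((Units.mk0 r hr0 : (ZMod d)ˣ) : ZMod d) = r := rfl
    rw [this, pow_two r, ← hr, inv_neg, inv_inv, neg_sq]
    exact hu

end Kloo
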