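import Mathlib

/-!
# Kloosterman sums: twisted multiplicativity, realness, non-vanishing
-/

namespace Kloo

open Finset

/-- `K c α = ∑_{u ∈ (ℤ/c)ˣ} e((α u + u⁻¹)/c)`. -/
noncomputable def K (c : ℕ) [NeZero c] (α : ZMod c) : ℂ :=
  ∑ u : (ZMod c)ˣ, ZMod.stdAddChar (α * (u : ZMod c) + ((u⁻¹ : (ZMod c)ˣ) : ZMod c))

/-- `F a c w = S(a w⁻², 1; c)`. -/
noncomputable def F (a : ℤ) (c w : ℕ) [NeZero c] : ℂ := K c ((a : ZMod c) * ((w : ZMod c)⁻¹) ^ 2)

lemma inv_eq_of_mul_eq_one {c : ℕ} {x y : ZMod c} (h : x * y = 1) : x⁻¹ = y := by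
  set u : (ZMod c)ˣ := ⟨x, y, h, by rw [mul_comm]; exact h⟩
  have h1 : x = (u : ZMod c) := rfl
  rw [h1, ZMod.inv_coe_unit]
  rfl

lemma cop_mul_inv {c w : ℕ} (h : w.Coprime c) : (w : ZMod c) * (w : ZMod c)⁻¹ = 1 :=
  ZMod.coe_mul_inv_eq_one w h

lemma inv_natCast_mul {c x y : ℕ} (hx : x.Coprime c) (hy : y.Coprime c) :
    (((x * y : ℕ) : ZMod c))⁻¹ = (x : ZMod c)⁻¹ * (y : ZMod c)⁻¹ := by
  apply inv_eq_of_mul_eq_one
  have h1 := cop_mul_inv hx
  have h2 := cop_mul_inv hy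
  push_cast
  calc (x : ZMod c) * y * ((x : ZMod c)⁻¹ * (y : ZMod c)⁻¹)
      = ((x : ZMod c) * (x : ZMod c)⁻¹) * (y * (y : ZMod c)⁻¹) := by ring
    _ = 1 := by rw [h1, h2, one_mul]

lemma map_inv_natCast {c d w : ℕ} (f : ZMod c →+* ZMod d) (h : w.Coprime c) :
    f ((w : ZMod c)⁻¹) = (w : ZMod d)⁻¹ := by
  symm
  apply inv_eq_of_mul_eq_one
  have h1 := congrArg f (cop_mul_inv h)
  rw [map_mul, map_natCast, map_one] at h1
  exact h1

/-- CRT for the additive character. -/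
lemma stdAddChar_mul {c c' : ℕ} [NeZero c] [NeZero c'] [NeZero (c * c')] (h : c.Coprime c')
    (k : ℤ) : ZMod.stdAddChar ((k : ℤ) : ZMod (c * c')) =
      ZMod.stdAddChar ((c' : ZMod c)⁻¹ * (k : ZMod c)) *
      ZMod.stdAddChar ((c : ZMod c')⁻¹ * (k : ZMod c')) := by
  have hcop : IsCoprime (c : ℤ) (c' : ℤ) := Nat.isCoprime_iff_coprime.2 h
  obtain ⟨t, s, hts⟩ := hcop
  -- t * c + s * c' = 1
  have h1 : (c' : ZMod c)⁻¹ = (s : ZMod c) := by
    apply inv_eq_of_mul_eq_one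
    have := congrArg (fun z : ℤ => (z : ZMod c)) hts
    push_cast at this
    rw [ZMod.natCast_self, mul_zero, zero_add] at this
    rw [mul_comm]; exact this
  have h2 : (c : ZMod c')⁻¹ = (t : ZMod c') := by
    apply inv_eq_of_mul_eq_one
    have := congrArg (fun z : ℤ => (z : ZMod c')) hts
    push_cast at this
    rw [ZMod.natCast_self, mul_zero, add_zero] at this
    rw [mul_comm]; exact this
  rw [h1, h2, ← Int.cast_mul, ← Int.cast_mul]
  rw [ZMod.stdAddChar_coe, ZMod.stdAddChar_coe, ZMod.stdAddChar_coe, ← Complex.exp_add]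
  congr 1
  have hc : (c : ℂ) ≠ 0 := by exact_mod_cast NeZero.ne c
  have hc' : (c' : ℂ) ≠ 0 := by exact_mod_cast NeZero.ne c'
  have h3 : (t : ℂ) * c + s * c' = 1 := by exact_mod_cast hts
  push_cast
  field_simp
  linear_combination (-(k : ℂ)) * h3

theorem K_mul {c c' : ℕ} [NeZero c] [NeZero c'] [NeZero (c * c')] (h : c.Coprime c')
    (α : ZMod (c * c')) :
    K (c * c') α = K c (ZMod.castHom (dvd_mul_right c c') (ZMod c) α * ((c' : ZMod c)⁻¹) ^ 2) *
      K c' (ZMod.castHom (dvd_mul_left c' c) (ZMod c') α * ((c : ZMod c')⁻¹) ^ 2) := by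
  set π1 := ZMod.castHom (dvd_mul_right c c') (ZMod c) with hπ1
  set π2 := ZMod.castHom (dvd_mul_left c' c) (ZMod c') with hπ2
  set u1 : (ZMod c)ˣ := ZMod.unitOfCoprime c' h.symm with hu1
  set u2 : (ZMod c')ˣ := ZMod.unitOfCoprime c h with hu2
  have hu1c : (u1 : ZMod c) = c' := ZMod.coe_unitOfCoprime c' h.symm
  have hu2c : (u2 : ZMod c') = c := ZMod.coe_unitOfCoprime c h
  let e0 : (ZMod (c * c'))ˣ ≃* (ZMod c)ˣ × (ZMod c')ˣ :=
    (Units.mapEquiv (ZMod.chineseRemainder h).toMulEquiv).trans MulEquiv.prodUnits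
  have he1 : ∀ w : (ZMod (c * c'))ˣ, ((e0 w).1 : ZMod c) = π1 (w : ZMod (c * c')) := by
    intro w
    have : ((e0 w).1 : ZMod c) = (ZMod.chineseRemainder h (w : ZMod (c * c'))).1 := rfl
    rw [this]
    have h2 : (RingHom.fst (ZMod c) (ZMod c')).comp (ZMod.chineseRemainder h).toRingHom = π1 :=
      Subsingleton.elim _ _
    rw [← h2]; rfl
  have he2 : ∀ w : (ZMod (c * c'))ˣ, ((e0 w).2 : ZMod c') = π2 (w : ZMod (c * c')) := by
    intro w
    have : ((e0 w).2 : ZMod c') = (ZMod.chineseRemainder h (w : ZMod (c * c'))).2 := rfl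
    rw [this]
    have h2 : (RingHom.snd (ZMod c) (ZMod c')).comp (ZMod.chineseRemainder h).toRingHom = π2 :=
      Subsingleton.elim _ _
    rw [← h2]; rfl
  let E : (ZMod (c * c'))ˣ ≃ (ZMod c)ˣ × (ZMod c')ˣ :=
    e0.toEquiv.trans (Equiv.prodCongr (Equiv.mulLeft u1) (Equiv.mulLeft u2))
  unfold K
  rw [sum_mul_sum, ← Fintype.sum_prod_type']
  refine Fintype.sum_equiv E _ _ fun w => ?_
  have hE1 : (E w).1 = u1 * (e0 w).1 := rfl
  have hE2 : (E w).2 = u2 * (e0 w).2 := rfl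
  rw [hE1, hE2]
  obtain ⟨k, hk⟩ := ZMod.intCast_surjective
    (α * (w : ZMod (c * c')) + ((w⁻¹ : (ZMod (c * c'))ˣ) : ZMod (c * c')))
  rw [← hk, stdAddChar_mul h]
  have hk1 : (k : ZMod c) = π1 α * (e0 w).1 + (((e0 w).1⁻¹ : (ZMod c)ˣ) : ZMod c) := by
    have h1 := congrArg π1 hk
    rw [map_intCast, map_add, map_mul] at h1
    rw [h1, he1 w]
    congr 1
    have h2 : (e0 w).1⁻¹ = (e0 w⁻¹).1 := by rw [map_inv]; rfl
    rw [h2, he1]
  have hk2 : (k : ZMod c') = π2 α * (e0 w).2 + (((e0 w).2⁻¹ : (ZMod c')ˣ) : ZMod c') := by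
    have h1 := congrArg π2 hk
    rw [map_intCast, map_add, map_mul] at h1
    rw [h1, he2 w]
    congr 1
    have h2 : (e0 w).2⁻¹ = (e0 w⁻¹).2 := by rw [map_inv]; rfl
    rw [h2, he2]
  congr 2
  · rw [hk1, ← hu1c, ZMod.inv_coe_unit, mul_inv]
    push_cast
    have : ((u1⁻¹ : (ZMod c)ˣ) : ZMod c) * (u1 : ZMod c) = 1 := by simp
    linear_combination (-(π1 α * ((u1⁻¹ : (ZMod c)ˣ) : ZMod c) * ((e0 w).1 : ZMod c))) * this
  · rw [hk2, ← hu2c, ZMod.inv_coe_unit, mul_inv]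
    push_cast
    have : ((u2⁻¹ : (ZMod c')ˣ) : ZMod c') * (u2 : ZMod c') = 1 := by simp
    linear_combination (-(π2 α * ((u2⁻¹ : (ZMod c')ˣ) : ZMod c') * ((e0 w).2 : ZMod c'))) * this

theorem F_mul (a : ℤ) {c c' w : ℕ} [NeZero c] [NeZero c'] [NeZero (c * c')] (h : c.Coprime c')
    (hw : w.Coprime (c * c')) : F a (c * c') w = F a c (c' * w) * F a c' (c * w) := by
  have hwc : w.Coprime c := Nat.Coprime.coprime_mul_right_right hw
  have hwc' : w.Coprime c' := Nat.Coprime.coprime_mul_left_right hw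
  unfold F
  rw [K_mul h]
  rw [map_mul, map_pow, map_inv_natCast _ hw, map_intCast, map_mul, map_pow,
    map_inv_natCast _ hw, map_intCast]
  rw [inv_natCast_mul h.symm hwc, inv_natCast_mul h hwc']
  congr 2 <;> ring

lemma F_congr (a : ℤ) {c w w' : ℕ} [NeZero c] (h : (w : ZMod c) = w') : F a c w = F a c w' := by
  unfold F; rw [h]

lemma F_congr_neg (a : ℤ) {c w w' : ℕ} [NeZero c] (hw : w'.Coprime c)
    (h : (w : ZMod c) = -(w' : ZMod c)) : F a c w = F a c w' := by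
  unfold F
  have h1 : (w : ZMod c)⁻¹ = -((w' : ZMod c)⁻¹) := by
    apply inv_eq_of_mul_eq_one
    rw [h, neg_mul_neg]
    exact cop_mul_inv hw
  rw [h1]; congr 1; ring

/-- `K` is real. -/
lemma K_conj (c : ℕ) [NeZero c] (α : ZMod c) : (starRingEnd ℂ) (K c α) = K c α := by
  unfold K
  rw [map_sum]
  refine Fintype.sum_equiv (Equiv.neg _) _ _ fun u => ?_
  rw [Equiv.neg_apply]
  have h1 : α * ((-u : (ZMod c)ˣ) : ZMod c) + (((-u)⁻¹ : (ZMod c)ˣ) : ZMod c) =
      -(α * (u : ZMod c) + ((u⁻¹ : (ZMod c)ˣ) : ZMod c)) := by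
    rw [inv_neg]; push_cast; ring
  rw [h1, AddChar.map_neg_eq_conj]

/-- the ring of algebraic integers in the complex numbers -/
abbrev R : Type := integralClosure ℤ ℂ

lemma exists_field (q : ℕ) (hq : q.Prime) : ∃ (κ : Type) (_ : Field κ) (φ : R →+* κ), φ (q : R) = 0 := by
  have hne : Ideal.span {(q : R)} ≠ ⊤ := by
    intro h
    rw [Ideal.span_singleton_eq_top] at h
    obtain ⟨u, hu⟩ := h
    -- 1/q would be an algebraic integer
    have h1 : (u⁻¹ : Rˣ).val * (q : R) = 1 := by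
      rw [← hu]; simp
    have h2 : ((u⁻¹ : Rˣ).val : ℂ) = algebraMap ℚ ℂ ((q:ℚ)⁻¹) := by
      have h3 := congrArg (fun z : R => (z : ℂ)) h1
      simp only [MulMemClass.coe_mul, OneMemClass.coe_one] at h3
      have h4 : (((q : R)) : ℂ) = (q : ℂ) := by simp
      rw [h4] at h3
      have hq0 : (q : ℂ) ≠ 0 := by exact_mod_cast hq.ne_zero
      rw [eq_ratCast]
      push_cast
      field_simp
      exact h3
    have h5 : IsIntegral ℤ (algebraMap ℚ ℂ ((q:ℚ)⁻¹)) := by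
      rw [← h2]; exact ((u⁻¹ : Rˣ).val).2
    have h6 : IsIntegral ℤ ((q:ℚ)⁻¹) := (isIntegral_algebraMap_iff (algebraMap ℚ ℂ).injective).1 h5
    obtain ⟨z, hz⟩ := IsIntegrallyClosed.isIntegral_iff.1 h6
    have hq0 : (q : ℚ) ≠ 0 := by exact_mod_cast hq.ne_zero
    have h7 : (z : ℚ) * q = 1 := by
      have : (algebraMap ℤ ℚ) z = (z : ℚ) := by simp
      rw [← this, hz]
      field_simp
    have h8 : z * q = 1 := by exact_mod_cast h7
    have h9 : (q : ℤ) ∣ 1 := ⟨z, by linarith⟩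
    have h10 : q ∣ 1 := by exact_mod_cast h9
    exact hq.one_lt.ne' (Nat.dvd_one.1 h10)
  obtain ⟨M, hM, hle⟩ := Ideal.exists_le_maximal _ hne
  let _ : Field (R ⧸ M) := Ideal.Quotient.field M
  refine ⟨R ⧸ M, inferInstance, Ideal.Quotient.mk M, ?_⟩
  rw [Ideal.Quotient.eq_zero_iff_mem]
  exact hle (Ideal.mem_span_singleton_self _)

lemma K_prime_ne_zero {p : ℕ} (hp : p.Prime) [NeZero p] (α : ZMod p) : K p α ≠ 0 := by
  have hfact : Fact p.Prime := ⟨hp⟩
  have h1 : Complex.exp (2 * Real.pi * Complex.I / p) ^ p = 1 :=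
    (Complex.isPrimitiveRoot_exp p hp.ne_zero).pow_eq_one
  have h2 : IsIntegral ℤ (Complex.exp (2 * Real.pi * Complex.I / p)) := by
    apply IsIntegral.of_pow hp.pos
    rw [h1]; exact isIntegral_one
  set Z : R := ⟨_, h2⟩ with hZ
  have hZp : Z ^ p = 1 := by
    apply Subtype.ext
    simpa [hZ] using h1
  have hval : ∀ y : ZMod p, ZMod.stdAddChar y = ((Z ^ y.val : R) : ℂ) := by
    intro y
    rw [ZMod.stdAddChar_apply, ZMod.toCircle_apply]
    push_cast
    rw [hZ]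
    simp only
    rw [← Complex.exp_nat_mul]
    congr 1
    ring
  set S : R := ∑ u : (ZMod p)ˣ, Z ^ (α * (u : ZMod p) + ((u⁻¹ : (ZMod p)ˣ) : ZMod p)).val with hS
  have hSK : (S : ℂ) = K p α := by
    unfold K
    rw [hS]
    push_cast
    refine sum_congr rfl fun u _ => ?_
    rw [hval]
    push_cast
    rfl
  intro hK
  have hS0 : S = 0 := by
    apply Subtype.ext
    rw [hSK, hK]; rfl
  obtain ⟨κ, _, φ, hφ⟩ := exists_field p hp
  have hchar : CharP κ p := by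
    have h0 : ((p : ℕ) : κ) = 0 := by
      rw [← hφ]; simp
    exact (CharP.charP_iff_prime_eq_zero hp).2 h0
  have hφZ : φ Z = 1 := by
    have h2 : (φ Z - 1) ^ p = 0 := by
      rw [sub_pow_char (φ Z) 1, ← map_pow, hZp]
      simp
    have := pow_eq_zero_iff (hp.ne_zero) |>.1 h2
    exact sub_eq_zero.1 this
  have h3 : φ S = -1 := by
    rw [hS, map_sum]
    simp only [map_pow, hφZ, one_pow, Finset.sum_const, Finset.card_univ, nsmul_eq_mul, mul_one]
    rw [ZMod.card_units, Nat.cast_sub hp.one_le, CharP.cast_eq_zero]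
    simp
  rw [hS0, map_zero] at h3
  have : (1 : κ) = 0 := by rw [← neg_eq_zero]; exact h3.symm
  exact one_ne_zero this

theorem K_ne_zero : ∀ (c : ℕ) (_ : Squarefree c) [NeZero c] (α : ZMod c), K c α ≠ 0 := by
  intro c
  induction c using Nat.strong_induction_on with
  | _ c ih =>
    intro hc inst α
    by_cases hc1 : c = 1
    · subst hc1
      unfold K
      have : Unique (ZMod 1)ˣ := inferInstance
      rw [Fintype.sum_unique]
      have h1 : ∀ z : ZMod 1, (ZMod.stdAddChar z : ℂ) ≠ 0 := fun z => by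
        rw [Subsingleton.elim z 0]; simp
      exact h1 _
    · have hp : c.minFac.Prime := Nat.minFac_prime hc1
      obtain ⟨m, hm⟩ := Nat.minFac_dvd c
      obtain ⟨p, hpdef⟩ : ∃ p, p = c.minFac := ⟨_, rfl⟩
      rw [← hpdef] at hm hp
      clear hpdef
      subst hm
      have hcop : p.Coprime m := Nat.coprime_of_squarefree_mul hc
      have hm0 : m ≠ 0 := by
        rintro rfl
        exact (NeZero.ne (p * 0)) (by simp)
      have : NeZero p := ⟨hp.ne_zero⟩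
      have : NeZero m := ⟨hm0⟩
      have hlt : m < p * m := (Nat.lt_mul_iff_one_lt_left (Nat.pos_of_ne_zero hm0)).2 hp.one_lt
      rw [K_mul hcop]
      exact mul_ne_zero (K_prime_ne_zero hp _) (ih m hlt hc.of_mul_right _)

end Kloo
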