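import Pool.Agent.LibKloosterman.Triple

/-!
# Counting moduli from pairs of primes
-/

namespace Kloo

open Finset Filter Topology

lemma count_transfer (𝒬 : Finset (ℕ × ℕ)) (S : Finset ℕ) (d k : ℕ) (hd : 0 < d)
    (hk : ∀ c ∈ S, #c.primeFactors ≤ k) (hS0 : ∀ c ∈ S, c ≠ 0)
    (h : ∀ x ∈ 𝒬, x.1.Prime ∧ x.2.Prime ∧ x.1 < x.2 ∧ (d * (x.1 * (x.2 - x.1)) ∈ S ∨
      d * ((x.2 - x.1) * x.2) ∈ S ∨ d * (x.2 * x.1) ∈ S)) : #𝒬 ≤ 3 * k * #S := by
  classical
  have hsub : 𝒬 ⊆ S.biUnion (fun c => c.primeFactors.biUnion (fun r =>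
      {(r, r + c / (d * r)), (r - c / (d * r), r), (c / (d * r), r)})) := by
    intro x hx
    obtain ⟨hp, hq, hlt, h3⟩ := h x hx
    rw [mem_biUnion]
    rcases h3 with h3 | h3 | h3
    · refine ⟨_, h3, ?_⟩
      rw [mem_biUnion]
      refine ⟨x.1, ?_, ?_⟩
      · exact Nat.mem_primeFactors.2 ⟨hp, ⟨d * (x.2 - x.1), by ring⟩, hS0 _ h3⟩
      · have : d * (x.1 * (x.2 - x.1)) / (d * x.1) = x.2 - x.1 := by
          rw [← mul_assoc, Nat.mul_div_cancel_left _ (Nat.mul_pos hd hp.pos)]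
        simp only [mem_insert, mem_singleton]
        left
        rw [this]
        ext
        · rfl
        · simp only; omega
    · refine ⟨_, h3, ?_⟩
      rw [mem_biUnion]
      refine ⟨x.2, ?_, ?_⟩
      · exact Nat.mem_primeFactors.2 ⟨hq, ⟨d * (x.2 - x.1), by ring⟩, hS0 _ h3⟩
      · have : d * ((x.2 - x.1) * x.2) / (d * x.2) = x.2 - x.1 := by
          rw [mul_comm (x.2 - x.1) x.2, ← mul_assoc,
            Nat.mul_div_cancel_left _ (Nat.mul_pos hd hq.pos)]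
        simp only [mem_insert, mem_singleton]
        right; left
        rw [this]
        ext
        · simp only; omega
        · rfl
    · refine ⟨_, h3, ?_⟩
      rw [mem_biUnion]
      refine ⟨x.2, ?_, ?_⟩
      · exact Nat.mem_primeFactors.2 ⟨hq, ⟨d * x.1, by ring⟩, hS0 _ h3⟩
      · have : d * (x.2 * x.1) / (d * x.2) = x.1 := by
          rw [← mul_assoc, Nat.mul_div_cancel_left _ (Nat.mul_pos hd hq.pos)]
        simp only [mem_insert, mem_singleton]
        right; right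
        rw [this]
  calc #𝒬 ≤ _ := card_le_card hsub
    _ ≤ ∑ c ∈ S, #(c.primeFactors.biUnion (fun r =>
      ({(r, r + c / (d * r)), (r - c / (d * r), r), (c / (d * r), r)} : Finset (ℕ × ℕ)))) :=
        card_biUnion_le
    _ ≤ ∑ c ∈ S, 3 * k := by
        refine sum_le_sum fun c hc => ?_
        calc _ ≤ ∑ r ∈ c.primeFactors, #({(r, r + c / (d * r)), (r - c / (d * r), r),
              (c / (d * r), r)} : Finset (ℕ × ℕ)) := card_biUnion_le
          _ ≤ ∑ r ∈ c.primeFactors, 3 := sum_le_sum fun r _ => card_le_three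
          _ = #c.primeFactors * 3 := by rw [sum_const, smul_eq_mul]
          _ ≤ k * 3 := Nat.mul_le_mul_right _ (hk c hc)
          _ = 3 * k := mul_comm _ _
    _ = _ := by rw [sum_const, smul_eq_mul]; ring

/-- From counts along `C n^64` to counts up to real `X`. -/
lemma real_transfer (P : ℕ → Prop) (C e : ℕ) (hC : 0 < C) (cc : ℝ) (hcc : 0 < cc)
    (h : ∀ᶠ n : ℕ in atTop, ∃ S : Finset ℕ, (∀ c ∈ S, c ≤ C * n ^ 64 ∧ P c) ∧
      cc * n ^ 64 / Real.log n ^ e ≤ #S) :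
    ∃ δ : ℝ, 0 < δ ∧ ∀ᶠ X : ℝ in atTop,
      δ * X / Real.log X ^ e ≤ (({c : ℕ | (c : ℝ) ≤ X ∧ P c} : Set ℕ).ncard : ℝ) := by
  have hC' : (0 : ℝ) < C := by exact_mod_cast hC
  refine ⟨cc / (C * 2 ^ 64), by positivity, ?_⟩
  have hfl : Tendsto (fun X : ℝ => ⌊(X / C) ^ ((1 : ℝ) / 64)⌋₊) atTop atTop := by
    apply tendsto_nat_floor_atTop.comp
    apply (tendsto_rpow_atTop (by norm_num : (0 : ℝ) < 1 / 64)).comp
    exact tendsto_id.atTop_div_const hC'
  filter_upwards [hfl.eventually h, hfl.eventually_ge_atTop 3, eventually_gt_atTop 0]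
    with X hX hn hX0
  obtain ⟨S, hS, hcard⟩ := hX
  set n := ⌊(X / C) ^ ((1 : ℝ) / 64)⌋₊ with hndef
  have hn' : (3 : ℝ) ≤ n := by exact_mod_cast hn
  have hn0 : (0 : ℝ) < n := by linarith
  have hXC : 0 < X / C := by positivity
  have hroot : ((X / C) ^ ((1 : ℝ) / 64)) ^ 64 = X / C := by
    rw [← Real.rpow_natCast, ← Real.rpow_mul hXC.le]; norm_num
  have h1 : (C : ℝ) * (n : ℝ) ^ 64 ≤ X := by
    have h2 : (n : ℝ) ≤ (X / C) ^ ((1 : ℝ) / 64) := Nat.floor_le (by positivity)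
    have h3 : (n : ℝ) ^ 64 ≤ X / C := by
      rw [← hroot]; gcongr
    rw [le_div_iff₀ hC'] at h3
    linarith
  have h2 : X ≤ C * 2 ^ 64 * (n : ℝ) ^ 64 := by
    have h3 : (X / C) ^ ((1 : ℝ) / 64) ≤ 2 * n := by
      have := Nat.lt_floor_add_one ((X / C) ^ ((1 : ℝ) / 64))
      rw [← hndef] at this
      linarith
    have h4 : X / C ≤ (2 * n) ^ 64 := by
      rw [← hroot]; gcongr
    rw [div_le_iff₀ hC', mul_pow] at h4
    linarith
  have hlogn : 0 < Real.log n := Real.log_pos (by linarith)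
  have hlog : Real.log n ≤ Real.log X := by
    apply Real.log_le_log hn0
    have h3 : (n : ℝ) ≤ (n : ℝ) ^ 64 := le_self_pow₀ (by linarith) (by norm_num)
    have h4 : (1 : ℝ) ≤ C := by exact_mod_cast hC
    have h5 : (0 : ℝ) < (n : ℝ) ^ 64 := by positivity
    nlinarith
  have hfin : ({c : ℕ | (c : ℝ) ≤ X ∧ P c} : Set ℕ).Finite := by
    apply (Set.finite_Iic ⌊X⌋₊).subset
    rintro c ⟨hc, _⟩
    exact Nat.le_floor hc
  have hSsub : (S : Set ℕ) ⊆ {c : ℕ | (c : ℝ) ≤ X ∧ P c} := by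
    intro c hc
    have h3 := hS c hc
    refine ⟨?_, h3.2⟩
    have h4 : (c : ℝ) ≤ ((C * n ^ 64 : ℕ) : ℝ) := by exact_mod_cast h3.1
    push_cast at h4
    linarith
  have h6 : (#S : ℝ) ≤ (({c : ℕ | (c : ℝ) ≤ X ∧ P c} : Set ℕ).ncard : ℝ) := by
    have := Set.ncard_le_ncard hSsub hfin
    rw [Set.ncard_coe_finset] at this
    exact_mod_cast this
  refine le_trans ?_ h6
  refine le_trans ?_ hcard
  calc cc / (C * 2 ^ 64) * X / Real.log X ^ e
      ≤ cc / (C * 2 ^ 64) * (C * 2 ^ 64 * (n : ℝ) ^ 64) / Real.log n ^ e := by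
        gcongr
    _ = _ := by field_simp

end Kloo
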