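import Pool.Agent.LibKloosterman.Negative

/-!
# The triple product identity
-/

namespace Kloo

open Finset

instance nz_mul (a b : ℕ) [NeZero a] [NeZero b] : NeZero (a * b) := ⟨mul_ne_zero (NeZero.ne a) (NeZero.ne b)⟩

/-- Triple identity: for pairwise coprime `A + B = C` and `w` coprime to all,
`F(AB, w) F(BC, w) F(CA, w)` is a square. -/
theorem F_triple (a : ℤ) (A B C w : ℕ) [NeZero A] [NeZero B] [NeZero C] (h : A + B = C)
    (hAB : A.Coprime B) (hwA : w.Coprime A) (hwB : w.Coprime B) (hwC : w.Coprime C) :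
    F a (A * B) w * F a (B * C) w * F a (C * A) w =
      (F a A (B * w) * F a B (A * w) * F a C (A * w)) ^ 2 := by
  have hBC : B.Coprime C := by rw [← h]; simpa using hAB.symm
  have hCA : C.Coprime A := by
    rw [← h, add_comm]; simpa using hAB.symm
  rw [F_mul a hAB (hwA.mul_right hwB), F_mul a hBC (hwB.mul_right hwC),
    F_mul a hCA (hwC.mul_right hwA)]
  -- F a A (C w) = F a A (B w); F a B (C w) = F a B (A w); F a C (B w) = F a C (A w)
  have h1 : F a A (C * w) = F a A (B * w) := by
    apply F_congr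
    rw [← h]; push_cast; rw [ZMod.natCast_self]; ring
  have h2 : F a B (C * w) = F a B (A * w) := by
    apply F_congr
    rw [← h]; push_cast; rw [ZMod.natCast_self]; ring
  have h3 : F a C (B * w) = F a C (A * w) := by
    apply F_congr_neg a (hCA.symm.mul_left hwC)
    have : ((A + B : ℕ) : ZMod C) = 0 := by rw [h]; exact ZMod.natCast_self C
    push_cast at this ⊢
    linear_combination (w : ZMod C) * this
  rw [h1, h2, h3]
  ring

lemma F_real (a : ℤ) (c w : ℕ) [NeZero c] : F a c w = ((F a c w).re : ℂ) := by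
  apply Complex.ext
  · simp
  · simp only [Complex.ofReal_im]; exact K_im _ _

lemma F_re_ne_zero (a : ℤ) (c w : ℕ) [NeZero c] (hc : Squarefree c) : (F a c w).re ≠ 0 := by
  intro h
  apply K_ne_zero c hc ((a : ZMod c) * ((w : ZMod c)⁻¹) ^ 2)
  exact Complex.ext h (K_im _ _)

/-- At least one of the three sums is positive. -/
theorem triple_pos (a : ℤ) (A B C : ℕ) [NeZero A] [NeZero B] [NeZero C] (h : A + B = C)
    (hAB : A.Coprime B) (hA : Squarefree A) (hB : Squarefree B) (hC : Squarefree C) :
    0 < (F a (A * B) 1).re ∨ 0 < (F a (B * C) 1).re ∨ 0 < (F a (C * A) 1).re := by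
  have key := F_triple a A B C 1 h hAB (Nat.coprime_one_left _) (Nat.coprime_one_left _)
    (Nat.coprime_one_left _)
  rw [F_real a (A * B) 1, F_real a (B * C) 1, F_real a (C * A) 1, F_real a A (B * 1),
    F_real a B (A * 1), F_real a C (A * 1)] at key
  have key' : (F a (A * B) 1).re * (F a (B * C) 1).re * (F a (C * A) 1).re =
      ((F a A (B * 1)).re * (F a B (A * 1)).re * (F a C (A * 1)).re) ^ 2 := by
    exact_mod_cast key
  have hpos : 0 < (F a (A * B) 1).re * (F a (B * C) 1).re * (F a (C * A) 1).re := by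
    rw [key']
    have := F_re_ne_zero a A (B * 1) hA
    have := F_re_ne_zero a B (A * 1) hB
    have := F_re_ne_zero a C (A * 1) hC
    positivity
  by_contra hcon
  push Not at hcon
  obtain ⟨h1, h2, h3⟩ := hcon
  have h4 : 0 ≤ (F a (A * B) 1).re * (F a (B * C) 1).re := mul_nonneg_of_nonpos_of_nonpos h1 h2
  have h5 := mul_nonpos_of_nonneg_of_nonpos h4 h3
  linarith

/-- With a suitable extra prime `d` at least one of the three sums is negative. -/
theorem triple_neg (a : ℤ) (d A B C : ℕ) [hd : Fact d.Prime] [NeZero A] [NeZero B] [NeZero C]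
    (h : A + B = C) (hAB : A.Coprime B) (hA : Squarefree A) (hB : Squarefree B) (hC : Squarefree C)
    (hdA : d.Coprime A) (hdB : d.Coprime B) (hdC : d.Coprime C) (t : (ZMod d)ˣ)
    (ht : (K d ((a : ZMod d) * (((t : ZMod d) ^ 2)⁻¹) ^ 2)).re < 0)
    (hAt : (A : ZMod d) = t) (hBt : (B : ZMod d) = t) :
    (F a (d * (A * B)) 1).re < 0 ∨ (F a (d * (B * C)) 1).re < 0 ∨
      (F a (d * (C * A)) 1).re < 0 := by
  have hBC : B.Coprime C := by rw [← h]; simpa using hAB.symm
  have hCA : C.Coprime A := by
    rw [← h, add_comm]; simpa using hAB.symm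
  have key := F_triple a A B C d h hAB hdA hdB hdC
  rw [F_mul a (hdA.mul_right hdB) (Nat.coprime_one_left _),
    F_mul a (hdB.mul_right hdC) (Nat.coprime_one_left _),
    F_mul a (hdC.mul_right hdA) (Nat.coprime_one_left _)]
  rw [mul_one, mul_one, mul_one, mul_one]
  have hCt : (C : ZMod d) = t + t := by rw [← h]; push_cast; rw [hAt, hBt]
  have h1 : F a d (A * B) = K d ((a : ZMod d) * (((t : ZMod d) ^ 2)⁻¹) ^ 2) := by
    unfold F
    push_cast
    rw [hAt, hBt, ← pow_two]
  have h2 : F a d (B * C) = F a d (C * A) := by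
    apply F_congr
    push_cast
    rw [hAt, hBt]; ring
  rw [h1, h2]
  set x := (K d ((a : ZMod d) * (((t : ZMod d) ^ 2)⁻¹) ^ 2)) with hx
  have hxr : x = (x.re : ℂ) := by
    apply Complex.ext
    · simp
    · simp only [Complex.ofReal_im]; exact K_im _ _
  have hy := F_real a d (C * A)
  have hy0 := F_re_ne_zero a d (C * A) hd.out.prime.squarefree
  rw [hxr, hy, F_real a (A * B) d, F_real a (B * C) d, F_real a (C * A) d]
  rw [F_real a (A * B) d, F_real a (B * C) d, F_real a (C * A) d, F_real a A (B * d),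
    F_real a B (A * d), F_real a C (A * d)] at key
  have key' : (F a (A * B) d).re * (F a (B * C) d).re * (F a (C * A) d).re =
      ((F a A (B * d)).re * (F a B (A * d)).re * (F a C (A * d)).re) ^ 2 := by
    exact_mod_cast key
  simp only [← Complex.ofReal_mul, Complex.ofReal_re]
  set y := (F a d (C * A)).re
  set p := (F a (A * B) d).re
  set q := (F a (B * C) d).re
  set r := (F a (C * A) d).re
  have hpos : 0 < p * q * r := by
    rw [key']
    have := F_re_ne_zero a A (B * d) hA
    have := F_re_ne_zero a B (A * d) hB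
    have := F_re_ne_zero a C (A * d) hC
    positivity
  have hneg : (x.re * p) * (y * q) * (y * r) < 0 := by
    have h5 : (x.re * p) * (y * q) * (y * r) = x.re * (y ^ 2 * (p * q * r)) := by ring
    rw [h5]
    exact mul_neg_of_neg_of_pos ht (by positivity)
  by_contra hcon
  push Not at hcon
  obtain ⟨e1, e2, e3⟩ := hcon
  have := mul_nonneg (mul_nonneg e1 e2) e3
  linarith

end Kloo
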