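import Pool.Agent.LibKloosterman.Transfer

/-!
# Removing the factor 2: the pair `b`, `4 b`
-/

namespace Kloo

open Finset Filter Topology

lemma F_cast (a : ℤ) {c c' : ℕ} (w : ℕ) [NeZero c] [NeZero c'] (h : c = c') :
    F a c w = F a c' w := by
  subst h; rfl

lemma K_two_zero : K 2 0 = -1 := by
  unfold K
  have huniv : (Finset.univ : Finset (ZMod 2)ˣ) = {1} := by decide
  rw [huniv, sum_singleton]
  have h1 : ((0 : ZMod 2) * ((1 : (ZMod 2)ˣ) : ZMod 2) +
      (((1 : (ZMod 2)ˣ)⁻¹ : (ZMod 2)ˣ) : ZMod 2)) = ((1 : ℤ) : ZMod 2) := by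
    simp
  rw [h1, ZMod.stdAddChar_coe]
  have h2 : 2 * (Real.pi : ℂ) * Complex.I * ((1 : ℤ) : ℂ) / ((2 : ℕ) : ℂ) = Real.pi * Complex.I := by
    push_cast; ring
  rw [h2, Complex.exp_pi_mul_I]

lemma F_two (b : ℤ) (m : ℕ) [NeZero m] (hm : Nat.Coprime 2 m) :
    F (4 * b) (2 * m) 1 = - F b m 1 := by
  rw [F_mul (4 * b) hm (Nat.coprime_one_left _)]
  have h1 : F (4 * b) 2 (m * 1) = -1 := by
    unfold F
    have : ((4 * b : ℤ) : ZMod 2) = 0 := by
      have h2 : ((4 : ℤ) : ZMod 2) = 0 := by decide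
      push_cast at h2 ⊢
      rw [h2, zero_mul]
    rw [this, zero_mul, K_two_zero]
  have h2 : F (4 * b) m (2 * 1) = F b m 1 := by
    unfold F
    congr 1
    have h3 := cop_mul_inv (c := m) (w := 2) hm
    have h4 : ((1 : ℕ) : ZMod m)⁻¹ = 1 := inv_eq_of_mul_eq_one (by simp)
    rw [h4, mul_one]
    push_cast at h3 ⊢
    calc (4 : ZMod m) * (b : ZMod m) * ((2 : ZMod m)⁻¹) ^ 2
        = b * (2 * (2 : ZMod m)⁻¹) ^ 2 := by ring
      _ = _ := by rw [h3]
  rw [h1, h2]; ring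

/-- Product form of the triple identity, positive case. -/
theorem prod_pos3 (a : ℤ) (A B C : ℕ) [NeZero A] [NeZero B] [NeZero C] (h : A + B = C)
    (hAB : A.Coprime B) (hA : Squarefree A) (hB : Squarefree B) (hC : Squarefree C) :
    0 < (F a (A * B) 1).re * (F a (B * C) 1).re * (F a (C * A) 1).re := by
  have key := F_triple a A B C 1 h hAB (Nat.coprime_one_left _) (Nat.coprime_one_left _)
    (Nat.coprime_one_left _)
  rw [F_real a (A * B) 1, F_real a (B * C) 1, F_real a (C * A) 1, F_real a A (B * 1),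
    F_real a B (A * 1), F_real a C (A * 1)] at key
  have key' : (F a (A * B) 1).re * (F a (B * C) 1).re * (F a (C * A) 1).re =
      ((F a A (B * 1)).re * (F a B (A * 1)).re * (F a C (A * 1)).re) ^ 2 := by
    exact_mod_cast key
  rw [key']
  have := F_re_ne_zero a A (B * 1) hA
  have := F_re_ne_zero a B (A * 1) hB
  have := F_re_ne_zero a C (A * 1) hC
  positivity

/-- Product form of the triple identity, negative case. -/
theorem prod_neg3 (a : ℤ) (d A B C : ℕ) [hd : Fact d.Prime] [NeZero A] [NeZero B] [NeZero C]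
    (h : A + B = C) (hAB : A.Coprime B) (hA : Squarefree A) (hB : Squarefree B) (hC : Squarefree C)
    (hdA : d.Coprime A) (hdB : d.Coprime B) (hdC : d.Coprime C) (t : (ZMod d)ˣ)
    (ht : (K d ((a : ZMod d) * (((t : ZMod d) ^ 2)⁻¹) ^ 2)).re < 0)
    (hAt : (A : ZMod d) = t) (hBt : (B : ZMod d) = t) :
    (F a (d * (A * B)) 1).re * (F a (d * (B * C)) 1).re * (F a (d * (C * A)) 1).re < 0 := by
  have hBC : B.Coprime C := by rw [← h]; simpa using hAB.symm
  have hCA : C.Coprime A := by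
    rw [← h, add_comm]; simpa using hAB.symm
  have key := F_triple a A B C d h hAB hdA hdB hdC
  rw [F_mul a (hdA.mul_right hdB) (Nat.coprime_one_left _),
    F_mul a (hdB.mul_right hdC) (Nat.coprime_one_left _),
    F_mul a (hdC.mul_right hdA) (Nat.coprime_one_left _)]
  rw [mul_one, mul_one, mul_one, mul_one]
  have hCt : (C : ZMod d) = t + t := by rw [← h]; push_cast; rw [hAt, hBt]
  have h1 : F a d (A * B) = K d ((a : ZMod d) * (((t : ZMod d) ^ 2)⁻¹) ^ 2) := by
    unfold F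
    push_cast
    rw [hAt, hBt, ← pow_two]
  have h2 : F a d (B * C) = F a d (C * A) := by
    apply F_congr
    push_cast
    rw [hAt, hBt]; ring
  rw [h1, h2]
  set x := (K d ((a : ZMod d) * (((t : ZMod d) ^ 2)⁻¹) ^ 2)) with hx
  have hxr : x = (x.re : ℂ) := by
    apply Complex.ext
    · simp
    · simp only [Complex.ofReal_im]; exact K_im _ _
  have hy := F_real a d (C * A)
  have hy0 := F_re_ne_zero a d (C * A) hd.out.prime.squarefree
  rw [hxr, hy, F_real a (A * B) d, F_real a (B * C) d, F_real a (C * A) d]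
  rw [F_real a (A * B) d, F_real a (B * C) d, F_real a (C * A) d, F_real a A (B * d),
    F_real a B (A * d), F_real a C (A * d)] at key
  have key' : (F a (A * B) d).re * (F a (B * C) d).re * (F a (C * A) d).re =
      ((F a A (B * d)).re * (F a B (A * d)).re * (F a C (A * d)).re) ^ 2 := by
    exact_mod_cast key
  simp only [← Complex.ofReal_mul, Complex.ofReal_re]
  set y := (F a d (C * A)).re
  set p := (F a (A * B) d).re
  set q := (F a (B * C) d).re
  set r := (F a (C * A) d).re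
  have hpos : 0 < p * q * r := by
    rw [key']
    have := F_re_ne_zero a A (B * d) hA
    have := F_re_ne_zero a B (A * d) hB
    have := F_re_ne_zero a C (A * d) hC
    positivity
  have h5 : (x.re * p) * (y * q) * (y * r) = x.re * (y ^ 2 * (p * q * r)) := by ring
  rw [h5]
  exact mul_neg_of_neg_of_pos ht (by positivity)

lemma count_transfer2 (𝒬 : Finset (ℕ × ℕ)) (S S' : Finset ℕ) (d k : ℕ) (hd : 0 < d)
    (hk : ∀ c ∈ S, #c.primeFactors ≤ k) (hS0 : ∀ c ∈ S, c ≠ 0)
    (hk' : ∀ c ∈ S', #c.primeFactors ≤ k) (hS0' : ∀ c ∈ S', c ≠ 0)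
    (h : ∀ x ∈ 𝒬, x.1.Prime ∧ x.2.Prime ∧ ∃ t : ℕ, x.2 = x.1 + 2 * t ∧ (d * (x.1 * t) ∈ S ∨
      d * (t * x.2) ∈ S ∨ d * (x.2 * x.1) ∈ S')) : #𝒬 ≤ 2 * k * (#S + #S') := by
  classical
  have hsub : 𝒬 ⊆ S.biUnion (fun c => c.primeFactors.biUnion (fun r =>
      {(r, r + 2 * (c / (d * r))), (r - 2 * (c / (d * r)), r)})) ∪
      S'.biUnion (fun c => c.primeFactors.biUnion (fun r => {(c / (d * r), r)})) := by
    intro x hx
    obtain ⟨hp, hq, t, ht, h3⟩ := h x hx
    rw [mem_union, mem_biUnion, mem_biUnion]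
    rcases h3 with h3 | h3 | h3
    · left
      refine ⟨_, h3, ?_⟩
      rw [mem_biUnion]
      refine ⟨x.1, ?_, ?_⟩
      · exact Nat.mem_primeFactors.2 ⟨hp, ⟨d * t, by ring⟩, hS0 _ h3⟩
      · have : d * (x.1 * t) / (d * x.1) = t := by
          rw [← mul_assoc, Nat.mul_div_cancel_left _ (Nat.mul_pos hd hp.pos)]
        simp only [mem_insert, mem_singleton]
        left
        rw [this]
        ext
        · rfl
        · simp only; omega
    · left
      refine ⟨_, h3, ?_⟩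
      rw [mem_biUnion]
      refine ⟨x.2, ?_, ?_⟩
      · exact Nat.mem_primeFactors.2 ⟨hq, ⟨d * t, by ring⟩, hS0 _ h3⟩
      · have : d * (t * x.2) / (d * x.2) = t := by
          rw [mul_comm t x.2, ← mul_assoc,
            Nat.mul_div_cancel_left _ (Nat.mul_pos hd hq.pos)]
        simp only [mem_insert, mem_singleton]
        right
        rw [this]
        ext
        · simp only; omega
        · rfl
    · right
      refine ⟨_, h3, ?_⟩
      rw [mem_biUnion]
      refine ⟨x.2, ?_, ?_⟩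
      · exact Nat.mem_primeFactors.2 ⟨hq, ⟨d * x.1, by ring⟩, hS0' _ h3⟩
      · have : d * (x.2 * x.1) / (d * x.2) = x.1 := by
          rw [← mul_assoc, Nat.mul_div_cancel_left _ (Nat.mul_pos hd hq.pos)]
        rw [mem_singleton, this]
  have h1 : #(S.biUnion (fun c => c.primeFactors.biUnion (fun r =>
      ({(r, r + 2 * (c / (d * r))), (r - 2 * (c / (d * r)), r)} : Finset (ℕ × ℕ))))) ≤
      2 * k * #S := by
    calc _ ≤ ∑ c ∈ S, #(c.primeFactors.biUnion (fun r =>
        ({(r, r + 2 * (c / (d * r))), (r - 2 * (c / (d * r)), r)} : Finset (ℕ × ℕ)))) :=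
          card_biUnion_le
      _ ≤ ∑ c ∈ S, 2 * k := by
          refine sum_le_sum fun c hc => ?_
          calc _ ≤ ∑ r ∈ c.primeFactors, #({(r, r + 2 * (c / (d * r))),
                (r - 2 * (c / (d * r)), r)} : Finset (ℕ × ℕ)) := card_biUnion_le
            _ ≤ ∑ r ∈ c.primeFactors, 2 := sum_le_sum fun r _ => card_le_two
            _ = #c.primeFactors * 2 := by rw [sum_const, smul_eq_mul]
            _ ≤ k * 2 := Nat.mul_le_mul_right _ (hk c hc)
            _ = 2 * k := mul_comm _ _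
      _ = _ := by rw [sum_const, smul_eq_mul]; ring
  have h2 : #(S'.biUnion (fun c => c.primeFactors.biUnion (fun r =>
      ({(c / (d * r), r)} : Finset (ℕ × ℕ))))) ≤ 2 * k * #S' := by
    calc _ ≤ ∑ c ∈ S', #(c.primeFactors.biUnion (fun r =>
        ({(c / (d * r), r)} : Finset (ℕ × ℕ)))) := card_biUnion_le
      _ ≤ ∑ c ∈ S', 2 * k := by
          refine sum_le_sum fun c hc => ?_
          calc _ ≤ ∑ r ∈ c.primeFactors, #({(c / (d * r), r)} : Finset (ℕ × ℕ)) :=
                card_biUnion_le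
            _ = #c.primeFactors := by simp
            _ ≤ k := hk' c hc
            _ ≤ 2 * k := by omega
      _ = _ := by rw [sum_const, smul_eq_mul]; ring
  calc #𝒬 ≤ _ := card_le_card hsub
    _ ≤ _ := card_union_le _ _
    _ ≤ 2 * k * #S + 2 * k * #S' := add_le_add h1 h2
    _ = _ := by ring

/-- From counts along `C n^64` to counts up to real `X`, for two sets. -/
lemma real_transfer2 (P P' : ℕ → Prop) (C e : ℕ) (hC : 0 < C) (cc : ℝ) (hcc : 0 < cc)
    (h : ∀ᶠ n : ℕ in atTop, ∃ S S' : Finset ℕ, (∀ c ∈ S, c ≤ C * n ^ 64 ∧ P c) ∧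
      (∀ c ∈ S', c ≤ C * n ^ 64 ∧ P' c) ∧
      cc * n ^ 64 / Real.log n ^ e ≤ #S + #S') :
    ∃ δ : ℝ, 0 < δ ∧ ∀ᶠ X : ℝ in atTop,
      δ * X / Real.log X ^ e ≤ (({c : ℕ | (c : ℝ) ≤ X ∧ P c} : Set ℕ).ncard : ℝ) +
        (({c : ℕ | (c : ℝ) ≤ X ∧ P' c} : Set ℕ).ncard : ℝ) := by
  have hC' : (0 : ℝ) < C := by exact_mod_cast hC
  refine ⟨cc / (C * 2 ^ 64), by positivity, ?_⟩
  have hfl : Tendsto (fun X : ℝ => ⌊(X / C) ^ ((1 : ℝ) / 64)⌋₊) atTop atTop := by
    apply tendsto_nat_floor_atTop.comp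
    apply (tendsto_rpow_atTop (by norm_num : (0 : ℝ) < 1 / 64)).comp
    exact tendsto_id.atTop_div_const hC'
  filter_upwards [hfl.eventually h, hfl.eventually_ge_atTop 3, eventually_gt_atTop 0]
    with X hX hn hX0
  obtain ⟨S, S', hS, hS', hcard⟩ := hX
  set n := ⌊(X / C) ^ ((1 : ℝ) / 64)⌋₊ with hndef
  have hn' : (3 : ℝ) ≤ n := by exact_mod_cast hn
  have hn0 : (0 : ℝ) < n := by linarith
  have hXC : 0 < X / C := by positivity
  have hroot : ((X / C) ^ ((1 : ℝ) / 64)) ^ 64 = X / C := by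
    rw [← Real.rpow_natCast, ← Real.rpow_mul hXC.le]; norm_num
  have h1 : (C : ℝ) * (n : ℝ) ^ 64 ≤ X := by
    have h2 : (n : ℝ) ≤ (X / C) ^ ((1 : ℝ) / 64) := Nat.floor_le (by positivity)
    have h3 : (n : ℝ) ^ 64 ≤ X / C := by
      rw [← hroot]; gcongr
    rw [le_div_iff₀ hC'] at h3
    linarith
  have h2 : X ≤ C * 2 ^ 64 * (n : ℝ) ^ 64 := by
    have h3 : (X / C) ^ ((1 : ℝ) / 64) ≤ 2 * n := by
      have := Nat.lt_floor_add_one ((X / C) ^ ((1 : ℝ) / 64))
      rw [← hndef] at this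
      linarith
    have h4 : X / C ≤ (2 * n) ^ 64 := by
      rw [← hroot]; gcongr
    rw [div_le_iff₀ hC', mul_pow] at h4
    linarith
  have hlogn : 0 < Real.log n := Real.log_pos (by linarith)
  have hlog : Real.log n ≤ Real.log X := by
    apply Real.log_le_log hn0
    have h3 : (n : ℝ) ≤ (n : ℝ) ^ 64 := le_self_pow₀ (by linarith) (by norm_num)
    have h4 : (1 : ℝ) ≤ C := by exact_mod_cast hC
    have h5 : (0 : ℝ) < (n : ℝ) ^ 64 := by positivity
    nlinarith
  have key : ∀ (Q : ℕ → Prop) (T : Finset ℕ), (∀ c ∈ T, c ≤ C * n ^ 64 ∧ Q c) →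
      (#T : ℝ) ≤ (({c : ℕ | (c : ℝ) ≤ X ∧ Q c} : Set ℕ).ncard : ℝ) := by
    intro Q T hT
    have hfin : ({c : ℕ | (c : ℝ) ≤ X ∧ Q c} : Set ℕ).Finite := by
      apply (Set.finite_Iic ⌊X⌋₊).subset
      rintro c ⟨hc, _⟩
      exact Nat.le_floor hc
    have hSsub : (T : Set ℕ) ⊆ {c : ℕ | (c : ℝ) ≤ X ∧ Q c} := by
      intro c hc
      have h3 := hT c hc
      refine ⟨?_, h3.2⟩
      have h4 : (c : ℝ) ≤ ((C * n ^ 64 : ℕ) : ℝ) := by exact_mod_cast h3.1
      push_cast at h4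
      linarith
    have := Set.ncard_le_ncard hSsub hfin
    rw [Set.ncard_coe_finset] at this
    exact_mod_cast this
  refine le_trans ?_ (add_le_add (key P S hS) (key P' S' hS'))
  refine le_trans ?_ hcard
  calc cc / (C * 2 ^ 64) * X / Real.log X ^ e
      ≤ cc / (C * 2 ^ 64) * (C * 2 ^ 64 * (n : ℝ) ^ 64) / Real.log n ^ e := by
        gcongr
    _ = _ := by field_simp

end Kloo
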